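import Pool.Agent.H68.GHK.Targets
import Pool.Agent.H84.GA.BIA
import Pool.Agent.H16.GZ.Col0
import Pool.Agent.H34.GM.MSR
import Pool.Agent.H34.GM.HAC
import Pool.Agent.H46.GU.MSU

/-!
Row QBD of the board ghk (MP_52e316_nt): the diagonal terms (helper85).
-/

set_option autoImplicit false

namespace Pool.Agent.H85.GHK

open MeasureTheory Pool.Agent.H34.GM Pool.Agent.H34.GZ Pool.Agent.H34.GU Pool.Agent.H34.GA
open Pool.Agent.H68.GHK
open Pool.Agent.H84.GA.BD (sz_le le_sz sz_nn KK KK_comp KK_pos KK_bd)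
open scoped ENNReal

/-! ### matrices near `1` -/

theorem sz_add {m : ℕ} (a b : Mat m) : sz (a + b) ≤ sz a + sz b :=
  norm_add_le (fun i j => a i j : V m) (fun i j => b i j)

theorem sz_neg {m : ℕ} (a : Mat m) : sz (-a) = sz a :=
  norm_neg (fun i j => a i j : V m)

theorem sz_mul_one {m : ℕ} (a b : Mat m) :
    sz (a * b - 1) ≤ sz (a - 1) + sz (b - 1) + m * sz (a - 1) * sz (b - 1) := by
  have h : a * b - 1 = ((a - 1) + (b - 1)) + (a - 1) * (b - 1) := by noncomm_ring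
  rw [h]
  exact (sz_add _ _).trans (add_le_add (sz_add _ _) (Pool.Agent.H84.GA.BD.sz_mul _ _))

theorem sz_two {m : ℕ} {a b : Mat m} {ε : ℝ} (hε : 0 ≤ ε) (hmε : m * ε ≤ 1)
    (ha : sz (a - 1) ≤ ε) (hb : sz (b - 1) ≤ ε) : sz (a * b - 1) ≤ 3 * ε := by
  have h1 : m * sz (a - 1) * sz (b - 1) ≤ m * ε * ε := by
    have := sz_nn (a - 1)
    have := sz_nn (b - 1)
    gcongr
  have h2 : m * ε * ε ≤ 1 * ε := by gcongr
  linarith [sz_mul_one a b]

theorem sz_four {m : ℕ} {a b c d : Mat m} {ε : ℝ} (hε : 0 ≤ ε) (hmε : m * ε ≤ 1)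
    (ha : sz (a - 1) ≤ ε) (hb : sz (b - 1) ≤ ε) (hc : sz (c - 1) ≤ ε) (hd : sz (d - 1) ≤ ε) :
    sz (a * b * (c * d) - 1) ≤ 15 * ε := by
  have h1 := sz_two hε hmε ha hb
  have h2 := sz_two hε hmε hc hd
  have h3 : m * sz (a * b - 1) * sz (c * d - 1) ≤ m * (3 * ε) * (3 * ε) := by
    have := sz_nn (a * b - 1)
    have := sz_nn (c * d - 1)
    gcongr
  have h4 : m * (3 * ε) * (3 * ε) = (m * ε) * (9 * ε) := by ring
  have h5 : (m * ε) * (9 * ε) ≤ 1 * (9 * ε) := by gcongr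
  linarith [sz_mul_one (a * b) (c * d)]

theorem nr {m : ℕ} (hm : 1 ≤ m) : ∃ C : ℝ, 1 ≤ C ∧ ∀ z : Mat m, sz (z - 1) ≤ 1 / (2 * m) →
    z.det ≠ 0 ∧ C⁻¹ ≤ |z.det| ∧ |z.det| ≤ C ∧ sz (z⁻¹ - 1) ≤ C * sz (z - 1) := by
  obtain ⟨C0, hC0, hK⟩ := KK_bd (m := m)
  have hcont : Continuous fun z : V m => |(mt z).det| :=
    (Continuous.matrix_det continuous_id).abs
  obtain ⟨D, hD⟩ := (KK_comp.image hcont).bddAbove
  have hm0 : (0 : ℝ) < m := by exact_mod_cast hm
  refine ⟨max (max C0 D) (m * C0), hC0.trans ((le_max_left _ _).trans (le_max_left _ _)),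
    fun z hz => ?_⟩
  have hzK : ((fun i j => z i j) : V m) ∈ KK m := by
    show ∑ i, ∑ j, ((z - 1) i j) ^ 2 ≤ 1 / 4
    have h1 : ∀ i j, ((z - 1) i j) ^ 2 ≤ (1 / (2 * m)) ^ 2 := fun i j => by
      rw [← sq_abs]
      exact pow_le_pow_left₀ (abs_nonneg _) ((le_sz _ _ _).trans hz) 2
    calc ∑ i, ∑ j, ((z - 1) i j) ^ 2 ≤ ∑ _i : Fin m, ∑ _j : Fin m, (1 / (2 * (m : ℝ))) ^ 2 :=
          Finset.sum_le_sum fun i _ => Finset.sum_le_sum fun j _ => h1 i j
      _ = 1 / 4 := by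
          rw [Finset.sum_const, Finset.sum_const, Finset.card_univ, Fintype.card_fin,
            nsmul_eq_mul, nsmul_eq_mul]
          field_simp
          norm_num
  have hdet : 0 < z.det := KK_pos hzK
  obtain ⟨h1, h2⟩ := hK _ hzK
  have h1' : C0⁻¹ ≤ |z.det| := h1
  have h2' : sz z⁻¹ ≤ C0 := h2
  have h3 : |z.det| ≤ D := hD ⟨_, hzK, rfl⟩
  have hC1 : C0 ≤ max (max C0 D) (m * C0) := (le_max_left _ _).trans (le_max_left _ _)
  refine ⟨hdet.ne', ?_, h3.trans ((le_max_right _ _).trans (le_max_left _ _)), ?_⟩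
  · exact (inv_anti₀ (by linarith) hC1).trans h1'
  · have h4 : z⁻¹ - 1 = -(z⁻¹ * (z - 1)) := by
      rw [mul_sub, Matrix.nonsing_inv_mul _ (by rw [isUnit_iff_ne_zero]; exact hdet.ne'), mul_one]
      abel
    rw [h4, sz_neg]
    refine (Pool.Agent.H84.GA.BD.sz_mul _ _).trans ?_
    have h5 : (m : ℝ) * sz z⁻¹ ≤ max (max C0 D) (m * C0) :=
      (mul_le_mul_of_nonneg_left h2' hm0.le).trans (le_max_right _ _)
    exact mul_le_mul_of_nonneg_right h5 (sz_nn _)

/-! ### the neighbourhoods -/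

/-- the unit matrix -/
def eV (m : ℕ) : V m := fun i j => (1 : Mat m) i j

theorem Bn_eq (m : ℕ) (r : ℝ) : Bn m r = Metric.closedBall (eV m) r := by
  ext u
  rw [Metric.mem_closedBall, dist_eq_norm]
  exact Iff.rfl

theorem Bn_meas (m : ℕ) (r : ℝ) : MeasurableSet (Bn m r) := by
  rw [Bn_eq]
  exact Metric.isClosed_closedBall.measurableSet

theorem Bn_fin (m : ℕ) (r : ℝ) : volume (Bn m r) < ⊤ := by
  rw [Bn_eq]
  exact measure_closedBall_lt_top

/-! ### the two measures -/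

theorem dens_meas (m : ℕ) :
    Measurable (fun z : V m => ENNReal.ofReal ((|(mt z).det| ^ m)⁻¹)) :=
  (((msr_det (m := m)).abs.pow_const m).inv).ennreal_ofReal

/-- comparison of the two measures near `1` -/
theorem vol_hm {m : ℕ} {C1 : ℝ} (hC1 : 1 ≤ C1) {S : Set (V m)} (hS : MeasurableSet S)
    (hn : ∀ z ∈ S, C1⁻¹ ≤ |(mt z).det| ∧ |(mt z).det| ≤ C1) {g : V m → ℝ≥0∞}
    (hg : Measurable g) :
    ∫⁻ z in S, g z ≤ ENNReal.ofReal (C1 ^ m) * ∫⁻ z in S, g z ∂(hm m) ∧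
    ∫⁻ z in S, g z ∂(hm m) ≤ ENNReal.ofReal (C1 ^ m) * ∫⁻ z in S, g z := by
  have hC0 : 0 < C1 := by linarith
  have h0 : ∫⁻ z in S, g z ∂(hm m) =
      ∫⁻ z in S, ENNReal.ofReal ((|(mt z).det| ^ m)⁻¹) * g z := by
    unfold hm
    rw [setLIntegral_withDensity_eq_setLIntegral_mul volume (dens_meas m) hg hS]
    rfl
  rw [h0]
  have hm1 : Measurable fun z : V m => ENNReal.ofReal ((|(mt z).det| ^ m)⁻¹) * g z :=
    (dens_meas m).mul hg
  rw [← lintegral_const_mul _ hm1, ← lintegral_const_mul _ hg]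
  constructor
  · refine setLIntegral_mono' hS fun z hz => ?_
    obtain ⟨h1, h2⟩ := hn z hz
    have hd : 0 < |(mt z).det| := lt_of_lt_of_le (by positivity) h1
    rw [← mul_assoc, ← ENNReal.ofReal_mul (by positivity)]
    have h3 : 1 ≤ C1 ^ m * (|(mt z).det| ^ m)⁻¹ := by
      rw [← div_eq_mul_inv, one_le_div (by positivity)]
      exact pow_le_pow_left₀ hd.le h2 m
    calc g z = 1 * g z := (one_mul _).symm
      _ ≤ _ := mul_le_mul' (ENNReal.one_le_ofReal.2 h3) le_rfl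
  · refine setLIntegral_mono' hS fun z hz => ?_
    obtain ⟨h1, h2⟩ := hn z hz
    refine mul_le_mul' (ENNReal.ofReal_le_ofReal ?_) le_rfl
    have h3 : (C1⁻¹) ^ m ≤ |(mt z).det| ^ m := pow_le_pow_left₀ (by positivity) h1 m
    rw [inv_pow] at h3
    exact inv_le_of_inv_le₀ (by positivity) h3

/-- the integral over a translate of the neighbourhood -/
theorem key_int {m : ℕ} (hm1 : 1 ≤ m) (hHAR : T_HAR) {C1 : ℝ} (hC1 : 1 ≤ C1)
    (hnr : ∀ z : Mat m, sz (z - 1) ≤ 1 / (2 * m) → C1⁻¹ ≤ |z.det| ∧ |z.det| ≤ C1)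
    {g : V m → ℝ≥0∞} (hg : Measurable g) {r0 r' : ℝ} (hr0 : r0 ≤ 1 / (2 * m))
    (hr' : r' ≤ 1 / (2 * m)) {A : Mat m} (hA : A.det ≠ 0)
    (hAB : ∀ u : V m, u ∈ Bn m r0 → sz (A * mt u - 1) ≤ r') :
    ∫⁻ u in Bn m r0, g (fun i j => (A * mt u) i j) ≤
      ENNReal.ofReal (C1 ^ m) * (ENNReal.ofReal (C1 ^ m) * ∫⁻ v in Bn m r', g v) := by
  have hgA : Measurable fun u : V m => g (fun i j => (A * mt u) i j) :=
    hg.comp (Pool.Agent.H34.GM.hac_meas_lm A)
  refine ((vol_hm hC1 (Bn_meas m r0) (fun z hz => hnr _ (le_trans hz hr0)) hgA).1).trans ?_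
  refine mul_le_mul' le_rfl ?_
  refine le_trans ?_
    (vol_hm hC1 (Bn_meas m r') (fun z hz => hnr _ (le_trans hz hr')) hg).2
  have h1 : Measurable ((Bn m r').indicator g) := hg.indicator (Bn_meas m r')
  rw [← lintegral_indicator (Bn_meas m r'), ← ((hHAR m hm1).1 A hA _ h1).1,
    ← lintegral_indicator (Bn_meas m r0)]
  refine lintegral_mono fun u => ?_
  by_cases hu : u ∈ Bn m r0
  · have hmem : ((fun i j => (A * mt u) i j) : V m) ∈ Bn m r' := hAB u hu
    rw [Set.indicator_of_mem hu, Set.indicator_of_mem hmem]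
  · rw [Set.indicator_of_notMem hu]
    exact zero_le

/-! ### the matrix coefficient -/

/-- the square of the matrix coefficient -/
noncomputable def GG {m N : ℕ} [NeZero N] (D : Set (V m)) (F : Mat m → VN m N → ℂ) (v : Mat m) :
    ℝ≥0∞ :=
  if v.det = 0 then 0 else ‖ip D (rt v F) F‖ₑ ^ 2

theorem rt_rt {m N : ℕ} (u v : Mat m) (F : Mat m → VN m N → ℂ) :
    rt u (rt v F) = rt (u * v) F := by
  funext g x
  show F (g * u * v) x = F (g * (u * v)) x
  rw [mul_assoc]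

theorem rt_one {m N : ℕ} (F : Mat m → VN m N → ℂ) : rt 1 F = F := by
  funext g x
  show F (g * 1) x = F g x
  rw [mul_one]

theorem enorm_conj (z : ℂ) : ‖(starRingEnd ℂ) z‖ₑ = ‖z‖ₑ := by
  rw [← ofReal_norm, ← ofReal_norm, RCLike.norm_conj]

section coef

variable {m N : ℕ} [NeZero N] {T : ℕ → Finset (ZM m)} {D : Set (V m)}
  {F : Mat m → VN m N → ℂ} {lam : ℕ → ℂ}

theorem ip_rt (hIPT : T_IPT) (hS : SysZ m N T D) (hF : HecA m N T F lam) {a b : Mat m}
    (ha : a.det ≠ 0) (hb : b.det ≠ 0) :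
    ip D (rt a F) (rt b F) = (starRingEnd ℂ) (ip D (rt (a⁻¹ * b) F) F) := by
  have ha' : IsUnit a.det := isUnit_iff_ne_zero.2 ha
  have hab : (a⁻¹ * b).det ≠ 0 := by
    rw [Matrix.det_mul]
    exact mul_ne_zero (by rw [Matrix.det_nonsing_inv, Ring.inverse_eq_inv']; exact inv_ne_zero ha)
      hb
  have hFF := hIPT m N T D hS F F lam lam hF hF
  have hHab := (hFF.1 _ hab).1
  have h1 := ((hIPT m N T D hS (rt (a⁻¹ * b) F) F lam lam hHab hF).1 a ha).2.2
  rw [rt_rt, ← mul_assoc, Matrix.mul_nonsing_inv a ha', one_mul] at h1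
  rw [← h1]
  exact (hIPT m N T D hS (rt b F) (rt a F) lam lam (hFF.1 b hb).1 (hFF.1 a ha).1).2.2.2.1

theorem ip_sq (hIPT : T_IPT) (hS : SysZ m N T D) (hF : HecA m N T F lam) {a b : Mat m}
    (ha : a.det ≠ 0) (hb : b.det ≠ 0) :
    ‖ip D (rt a F) (rt b F)‖ₑ ^ 2 = GG D F (a⁻¹ * b) := by
  have hab : (a⁻¹ * b).det ≠ 0 := by
    rw [Matrix.det_mul]
    exact mul_ne_zero (by rw [Matrix.det_nonsing_inv, Ring.inverse_eq_inv']; exact inv_ne_zero ha)
      hb
  rw [ip_rt hIPT hS hF ha hb, enorm_conj, GG, if_neg hab]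

theorem GG_meas (hIPT : T_IPT) (hS : SysZ m N T D) (hF : HecA m N T F lam) :
    Measurable fun v : V m => GG D F (mt v) := by
  have h1 := (hIPT m N T D hS F F lam lam hF hF).2.2.2.2
  have h2 : ContinuousOn (fun v : V m => ip D (rt (mt v) F) F) {v | (mt v).det ≠ 0} := by
    have h3 : ContinuousOn (fun v : V m => (v, eV m)) {v | (mt v).det ≠ 0} :=
      (continuous_id.prodMk continuous_const).continuousOn
    have h4 := h1.comp h3 fun v hv => ⟨hv, by
      show (1 : Mat m).det ≠ 0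
      rw [Matrix.det_one]
      exact one_ne_zero⟩
    refine h4.congr fun v _ => ?_
    show ip D (rt (mt v) F) F = ip D (rt (mt v) F) (rt 1 F)
    rw [rt_one]
  have h5 : ContinuousOn (fun v : V m => ‖ip D (rt (mt v) F) F‖ₑ ^ 2)
      {v | (mt v).det ≠ 0} :=
    ((ENNReal.continuous_pow 2).comp continuous_enorm).comp_continuousOn h2
  have hs : MeasurableSet {v : V m | (mt v).det ≠ 0} :=
    (msr_det (m := m)) (measurableSet_singleton 0).compl
  classical
  have h6 := h5.measurable_piecewise (g := fun _ => (0 : ℝ≥0∞)) continuousOn_const hs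
  have h7 : (fun v : V m => GG D F (mt v)) =
      {v : V m | (mt v).det ≠ 0}.piecewise (fun v => ‖ip D (rt (mt v) F) F‖ₑ ^ 2) fun _ => 0 := by
    funext v
    unfold GG
    by_cases h : (mt v).det = 0
    · rw [if_pos h, Set.piecewise_eq_of_notMem _ _ _ (by simpa using h)]
    · rw [if_neg h, Set.piecewise_eq_of_mem _ _ _ (by simpa using h)]
  rw [h7]
  exact h6

theorem GG_scal (hm1 : 1 ≤ m) (hS : SysZ m N T D) (hF : HecA m N T F lam) {s : ℝ} (hs : 0 < s)
    (v : Mat m) : GG D F (s • v) = GG D F v := by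
  unfold GG
  have h1 : (s • v).det = s ^ m * v.det := by
    rw [Matrix.det_smul, Fintype.card_fin]
  by_cases hv : v.det = 0
  · rw [if_pos hv, if_pos (by rw [h1, hv, mul_zero])]
  · rw [if_neg hv, if_neg (by rw [h1]; exact mul_ne_zero (by positivity) hv)]
    congr 2
    unfold ip
    refine Finset.sum_congr rfl fun x _ => ?_
    refine setIntegral_congr_fun hS.dom.meas fun z hz => ?_
    have hz0 := Pool.Agent.H46.GU.dom_det hm1 hS.dom hz
    show F (mt z * (s • v)) x * _ = F (mt z * v) x * _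
    rw [Matrix.mul_smul, hF.scal s hs _ x (by rw [Matrix.det_mul]; exact mul_ne_zero hz0 hv)]

/-- the mean near `1` -/
theorem GG_Hn (hIPT : T_IPT) (hS : SysZ m N T D) (hF : HecA m N T F lam) (hn : nU D F = 1)
    {r r' : ℝ} (hr : r' ≤ r) :
    ∫⁻ v in Bn m r', GG D F (mt v) ≤ ENNReal.ofReal (Hn r D F) := by
  have hnull := Pool.Agent.H16.GZ.det_null m
  have hae : ∀ᵐ v : V m ∂(volume.restrict (Bn m r)), (mt v).det ≠ 0 := by
    refine ae_restrict_of_ae ?_
    rw [ae_iff]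
    simpa using hnull
  have hFF := hIPT m N T D hS F F lam lam hF hF
  have hbd : ∀ v : Mat m, v.det ≠ 0 → ‖ip D (rt v F) F‖ ^ 2 ≤ 1 := by
    intro v hv
    obtain ⟨hv1, hv2, -⟩ := hFF.1 v hv
    have := (hIPT m N T D hS (rt v F) F lam lam hv1 hF).2.1
    rwa [hv2, hn, mul_one] at this
  have heq : ∀ᵐ v : V m ∂(volume.restrict (Bn m r)),
      GG D F (mt v) = ENNReal.ofReal (‖ip D (rt (mt v) F) F‖ ^ 2) := by
    filter_upwards [hae] with v hv
    unfold GG
    rw [if_neg hv, ENNReal.ofReal_pow (norm_nonneg _), ofReal_norm]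
  have hint : Integrable (fun v : V m => ‖ip D (rt (mt v) F) F‖ ^ 2)
      (volume.restrict (Bn m r)) := by
    have h1 : AEStronglyMeasurable (fun v : V m => (GG D F (mt v)).toReal)
        (volume.restrict (Bn m r)) :=
      (GG_meas hIPT hS hF).ennreal_toReal.aestronglyMeasurable
    have h2 : (fun v : V m => (GG D F (mt v)).toReal) =ᵐ[volume.restrict (Bn m r)]
        fun v : V m => ‖ip D (rt (mt v) F) F‖ ^ 2 := by
      filter_upwards [heq] with v hv
      rw [hv, ENNReal.toReal_ofReal (by positivity)]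
    have : IsFiniteMeasure (volume.restrict (Bn m r) : Measure (V m)) :=
      ⟨by rw [Measure.restrict_apply_univ]; exact Bn_fin m r⟩
    refine Integrable.of_bound (h1.congr h2) 1 ?_
    filter_upwards [hae] with v hv
    rw [Real.norm_of_nonneg (by positivity)]
    exact hbd _ hv
  unfold Hn
  rw [ofReal_integral_eq_lintegral_ofReal hint
    (Filter.Eventually.of_forall fun v => by positivity)]
  calc ∫⁻ v in Bn m r', GG D F (mt v) ≤ ∫⁻ v in Bn m r, GG D F (mt v) :=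
        lintegral_mono_set fun v hv => le_trans hv hr
    _ = _ := lintegral_congr_ae heq

end coef

/-! ### measurability -/

theorem mulm {α : Type} [MeasurableSpace α] {m : ℕ} {f g : α → V m} (hf : Measurable f)
    (hg : Measurable g) :
    Measurable (fun a => ((fun i j => (mt (f a) * mt (g a)) i j) : V m)) := by
  refine measurable_pi_lambda _ fun i => measurable_pi_lambda _ fun j => ?_
  have h1 : ∀ a, (mt (f a) * mt (g a)) i j = ∑ k, f a i k * g a k j :=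
    fun a => Matrix.mul_apply
  simp only [h1]
  refine Finset.measurable_sum _ fun k _ => Measurable.mul ?_ ?_
  · exact (measurable_pi_apply k).comp ((measurable_pi_apply i).comp hf)
  · exact (measurable_pi_apply j).comp ((measurable_pi_apply k).comp hg)

theorem invm {α : Type} [MeasurableSpace α] {m : ℕ} {f : α → V m} (hf : Measurable f) :
    Measurable (fun a => ((fun i j => ((mt (f a))⁻¹) i j) : V m)) :=
  measurable_pi_lambda _ fun i => measurable_pi_lambda _ fun j => (msr_inv_entry i j).comp hf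

theorem ab_le (a b : ℝ≥0∞) : a * b ≤ a ^ 2 + b ^ 2 := by
  rcases le_total a b with h | h
  · calc a * b ≤ b * b := mul_le_mul' h le_rfl
      _ = b ^ 2 := (sq b).symm
      _ ≤ a ^ 2 + b ^ 2 := le_add_self
  · calc a * b ≤ a * a := mul_le_mul' le_rfl h
      _ = a ^ 2 := (sq a).symm
      _ ≤ a ^ 2 + b ^ 2 := le_self_add

theorem shell_det {m : ℕ} (hm1 : 1 ≤ m) {z : V m} (hz : z ∈ Shell m) :
    0 < aN (mt z) ∧ (mt z).det ≠ 0 := by
  have h1 : 1 ≤ aN (mt z) := hz.1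
  refine ⟨by linarith, fun h => ?_⟩
  unfold aN at h1
  have hm0 : (0 : ℝ) < m := by exact_mod_cast hm1
  rw [h, abs_zero, Real.zero_rpow (by positivity)] at h1
  linarith

/-- interchange of the integrations -/
theorem swap3 {m : ℕ} {S B : Set (V m)} {H : V m → V m → V m → ℝ≥0∞}
    (hH : Measurable fun p : (V m × V m) × V m => H p.1.1 p.1.2 p.2) :
    ∫⁻ u in B, ∫⁻ z in S, ∫⁻ z' in S, H u z z' ∂(hm m) ∂(hm m) =
      ∫⁻ z in S, ∫⁻ z' in S, (∫⁻ u in B, H u z z') ∂(hm m) ∂(hm m) := by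
  have : SigmaFinite (hm m) := msr_sf
  have h1 : Measurable fun p : V m × V m => ∫⁻ z' in S, H p.1 p.2 z' ∂(hm m) :=
    Measurable.lintegral_prod_right' (f := fun q : (V m × V m) × V m => H q.1.1 q.1.2 q.2) hH
  rw [lintegral_lintegral_swap (f := fun u z => ∫⁻ z' in S, H u z z' ∂(hm m)) h1.aemeasurable]
  refine lintegral_congr fun z => ?_
  have h2 : Measurable fun p : V m × V m => H p.1 z p.2 :=
    hH.comp ((measurable_fst.prodMk measurable_const).prodMk measurable_snd)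
  exact lintegral_lintegral_swap (f := fun u z' => H u z z') h2.aemeasurable

section main

variable {m N : ℕ} [NeZero N] {T : ℕ → Finset (ZM m)} {D : Set (V m)}
  {F : Mat m → VN m N → ℂ} {lam : ℕ → ℂ}

/-- the scalar products of the convolutions, in absolute value -/
theorem ip_conv (hIPT : T_IPT) (hRRT : T_RRT) (hm1 : 1 ≤ m) (hS : SysZ m N T D)
    (hF : HecA m N T F lam) {k : Mat m → ℂ} (hk : Tg m k) {u u' : Mat m} (hu : u.det ≠ 0)
    (hu' : u'.det ≠ 0) :
    ‖ip D (rt u F) (rt u' F) *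
      (starRingEnd ℂ) (ip D (Rr k 1 (rt u F)) (Rr k 1 (rt u' F)))‖ₑ ≤
    ∫⁻ z in Shell m, ∫⁻ z' in Shell m, ‖k ((aN (mt z))⁻¹ • mt z)‖ₑ *
      ‖k ((aN (mt z'))⁻¹ • mt z')‖ₑ * (GG D F (u⁻¹ * u') +
        GG D F (u⁻¹ * mt z * ((mt z')⁻¹ * u'))) ∂(hm m) ∂(hm m) := by
  have hSm : MeasurableSet (Shell m) := msr_shell
  rw [enorm_mul, enorm_conj, hRRT m N T D hS F lam hF k hk u u' hu hu']
  have hne : ‖ip D (rt u F) (rt u' F)‖ₑ ≠ ⊤ := enorm_ne_top
  calc ‖ip D (rt u F) (rt u' F)‖ₑ * ‖∫ z in Shell m, ∫ z' in Shell m,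
        k ((aN (mt z))⁻¹ • mt z) * (starRingEnd ℂ) (k ((aN (mt z'))⁻¹ • mt z')) *
        ip D (rt ((mt z)⁻¹ * u) F) (rt ((mt z')⁻¹ * u') F) ∂(hm m) ∂(hm m)‖ₑ
      ≤ ‖ip D (rt u F) (rt u' F)‖ₑ * ∫⁻ z in Shell m, ∫⁻ z' in Shell m,
        ‖k ((aN (mt z))⁻¹ • mt z) * (starRingEnd ℂ) (k ((aN (mt z'))⁻¹ • mt z')) *
        ip D (rt ((mt z)⁻¹ * u) F) (rt ((mt z')⁻¹ * u') F)‖ₑ ∂(hm m) ∂(hm m) := by
        refine mul_le_mul' le_rfl ?_
        refine (enorm_integral_le_lintegral_enorm _).trans ?_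
        exact lintegral_mono fun z => enorm_integral_le_lintegral_enorm _
    _ = ∫⁻ z in Shell m, ∫⁻ z' in Shell m, ‖ip D (rt u F) (rt u' F)‖ₑ *
        ‖k ((aN (mt z))⁻¹ • mt z) * (starRingEnd ℂ) (k ((aN (mt z'))⁻¹ • mt z')) *
        ip D (rt ((mt z)⁻¹ * u) F) (rt ((mt z')⁻¹ * u') F)‖ₑ ∂(hm m) ∂(hm m) := by
        rw [← lintegral_const_mul' _ _ hne]
        refine lintegral_congr fun z => ?_
        rw [← lintegral_const_mul' _ _ hne]
    _ ≤ _ := by
        refine setLIntegral_mono' hSm fun z hz => ?_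
        refine setLIntegral_mono' hSm fun z' hz' => ?_
        obtain ⟨-, hz0⟩ := shell_det hm1 hz
        obtain ⟨-, hz0'⟩ := shell_det hm1 hz'
        have hzi : ((mt z)⁻¹ * u).det ≠ 0 := by
          rw [Matrix.det_mul]
          exact mul_ne_zero (by
            rw [Matrix.det_nonsing_inv, Ring.inverse_eq_inv']
            exact inv_ne_zero hz0) hu
        have hzi' : ((mt z')⁻¹ * u').det ≠ 0 := by
          rw [Matrix.det_mul]
          exact mul_ne_zero (by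
            rw [Matrix.det_nonsing_inv, Ring.inverse_eq_inv']
            exact inv_ne_zero hz0') hu'
        have e1 := ip_sq hIPT hS hF hu hu'
        have e2 := ip_sq hIPT hS hF hzi hzi'
        rw [Matrix.mul_inv_rev, Matrix.nonsing_inv_nonsing_inv _
          (isUnit_iff_ne_zero.2 hz0)] at e2
        rw [← e1, ← e2, enorm_mul, enorm_mul, enorm_conj]
        calc ‖ip D (rt u F) (rt u' F)‖ₑ * (‖k ((aN (mt z))⁻¹ • mt z)‖ₑ *
              ‖k ((aN (mt z'))⁻¹ • mt z')‖ₑ *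
              ‖ip D (rt ((mt z)⁻¹ * u) F) (rt ((mt z')⁻¹ * u') F)‖ₑ) =
            ‖k ((aN (mt z))⁻¹ • mt z)‖ₑ * ‖k ((aN (mt z'))⁻¹ • mt z')‖ₑ *
              (‖ip D (rt u F) (rt u' F)‖ₑ *
                ‖ip D (rt ((mt z)⁻¹ * u) F) (rt ((mt z')⁻¹ * u') F)‖ₑ) := by ring
          _ ≤ _ := mul_le_mul' le_rfl (ab_le _ _)

end main

theorem pf_QBD (hIPT : T_IPT) (hRRT : T_RRT) (hBIA : T_BIA) (hTBA : T_TBA) (hHAR : T_HAR) :
    T_QBD := by
  intro m χ r hm1 hχ hr
  obtain ⟨CB, hCB, hB⟩ := hBIA m χ hm1 hχ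
  obtain ⟨C1, hC1, hnr⟩ := nr hm1
  obtain ⟨ct, Ct, At, hct, -, hT⟩ := hTBA m χ hm1 hχ
  have hm0 : (0 : ℝ) < m := by exact_mod_cast hm1
  have hm1' : (1 : ℝ) ≤ m := by exact_mod_cast hm1
  set r' : ℝ := min r (1 / (2 * m)) with hr'
  have hr'0 : 0 < r' := lt_min hr (by positivity)
  have hr'1 : r' ≤ 1 / (2 * m) := min_le_right _ _
  set M0 : ℝ := max C1 CB with hM0d
  have hM0 : 1 ≤ M0 := hC1.trans (le_max_left _ _)
  set c : ℝ := r' / (15 * M0) with hc
  have hc0 : 0 < c := by positivity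
  have hcM : M0 * c = r' / 15 := by
    rw [hc]
    field_simp
  have hcε : c ≤ M0 * c := by nlinarith
  have hcr : c ≤ 1 / (2 * m) := by
    have : r' / 15 ≤ r' := by linarith
    linarith
  have hm2 : 1 / (2 * (m : ℝ)) ≤ 1 / 2 := by
    rw [div_le_div_iff₀ (by positivity) (by norm_num)]
    linarith
  set ε : ℝ := M0 * c with hε
  have hε0 : 0 ≤ ε := by positivity
  have hmε : m * ε ≤ 1 := by
    rw [hcM]
    have h1 : m * r' ≤ m * (1 / (2 * m)) := mul_le_mul_of_nonneg_left hr'1 hm0.le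
    have h2 : (m : ℝ) * (1 / (2 * m)) = 1 / 2 := by field_simp
    linarith
  have hWf : volume (Bn m c) ≠ ⊤ := (Bn_fin m c).ne
  set W : ℝ := (volume (Bn m c)).toReal with hW
  have hW0 : 0 ≤ W := ENNReal.toReal_nonneg
  refine ⟨c, 2 * C1 ^ m * C1 ^ m * W + 1, hc0, by positivity, ?_⟩
  intro N _ T D hS F lam hF hn r0 δ hr00 hr0c hδ hδc
  have hδ2 : δ ≤ 1 / 2 := by linarith
  obtain ⟨-, -, -, htL⟩ := hT δ hδ hδ2
  set t : ℝ := tb m χ δ with ht
  have ht0 : 0 ≤ t := norm_nonneg _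
  obtain ⟨hk0, hkB⟩ := hB δ hδ hδ2
  have hk : Tg m (bi m χ δ) := hk0.toTg
  have hSm : MeasurableSet (Shell m) := msr_shell
  set K : V m → ℝ≥0∞ := fun z => ‖bi m χ δ ((aN (mt z))⁻¹ • mt z)‖ₑ with hK
  have hKm : Measurable K := by
    have h1 : Measurable fun z : V m => (aN (mt z))⁻¹ • z :=
      (msr_aN.inv).smul measurable_id
    exact ((hk.cont.comp msr_cmt).measurable.comp h1).enorm
  have hKt : ∫⁻ z in Shell m, K z ∂(hm m) = ENNReal.ofReal t := by
    rw [← htL]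
    unfold L1
    refine lintegral_congr fun z => ?_
    rw [inv_one, one_mul, ofReal_norm]
  set Me : ℝ≥0∞ := ENNReal.ofReal (C1 ^ m) *
    (ENNReal.ofReal (C1 ^ m) * ENNReal.ofReal (Hn r D F)) with hMe
  have hGm := GG_meas hIPT hS hF
  have key : ∀ A : Mat m, A.det ≠ 0 → (∀ u' : V m, u' ∈ Bn m r0 → sz (A * mt u' - 1) ≤ r') →
      ∫⁻ u' in Bn m r0, GG D F (A * mt u') ≤ Me := by
    intro A hA hAB
    refine (key_int hm1 hHAR hC1 (fun z hz => ⟨(hnr z hz).2.1, (hnr z hz).2.2.1⟩) hGm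
      (hr0c.trans hcr) hr'1 hA hAB).trans ?_
    exact mul_le_mul' le_rfl (mul_le_mul' le_rfl (GG_Hn hIPT hS hF hn (min_le_left _ _)))
  have hdi : ∀ A : Mat m, A.det ≠ 0 → (A⁻¹).det ≠ 0 := fun A hA => by
    rw [Matrix.det_nonsing_inv, Ring.inverse_eq_inv']
    exact inv_ne_zero hA
  have hU : ∀ u : V m, u ∈ Bn m r0 → (mt u).det ≠ 0 ∧ sz (mt u - 1) ≤ ε ∧
      sz ((mt u)⁻¹ - 1) ≤ ε := by
    intro u hu
    have h1 : sz (mt u - 1) ≤ c := le_trans hu hr0c
    obtain ⟨h2, -, -, h3⟩ := hnr (mt u) (h1.trans hcr)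
    refine ⟨h2, h1.trans hcε, h3.trans ?_⟩
    calc C1 * sz (mt u - 1) ≤ M0 * c :=
          mul_le_mul (le_max_left _ _) h1 (sz_nn _) (by positivity)
      _ = ε := hε.symm
  -- the inner integral
  have hin : ∀ u : V m, u ∈ Bn m r0 → ∀ z : V m, z ∈ Shell m → ∀ z' : V m, z' ∈ Shell m →
      ∫⁻ u' in Bn m r0, K z * K z' * (GG D F ((mt u)⁻¹ * mt u') +
        GG D F ((mt u)⁻¹ * mt z * ((mt z')⁻¹ * mt u'))) ≤ K z * (K z' * (2 * Me)) := by
    intro u hu z hz z' hz'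
    by_cases h0 : K z * K z' = 0
    · simp only [h0, zero_mul]
      rw [lintegral_zero]
      exact zero_le
    have hKz : bi m χ δ ((aN (mt z))⁻¹ • mt z) ≠ 0 := fun h => h0 (by
      show ‖bi m χ δ ((aN (mt z))⁻¹ • mt z)‖ₑ * _ = 0
      rw [h, enorm_zero, zero_mul])
    have hKz' : bi m χ δ ((aN (mt z'))⁻¹ • mt z') ≠ 0 := fun h => h0 (by
      show _ * ‖bi m χ δ ((aN (mt z'))⁻¹ • mt z')‖ₑ = 0
      rw [h, enorm_zero, mul_zero])
    obtain ⟨ha, hz0⟩ := shell_det hm1 hz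
    obtain ⟨ha', hz0'⟩ := shell_det hm1 hz'
    obtain ⟨hu0, hu1, hu2⟩ := hU u hu
    obtain ⟨-, -, hz1, -⟩ := (hkB _).2.2.1 hKz
    obtain ⟨-, -, -, hz1'⟩ := (hkB _).2.2.1 hKz'
    set a : ℝ := aN (mt z) with hadef
    set a' : ℝ := aN (mt z') with hadef'
    have hinv : (a'⁻¹ • mt z')⁻¹ = a' • (mt z')⁻¹ := by
      refine Matrix.inv_eq_right_inv ?_
      rw [Matrix.smul_mul, Matrix.mul_smul, smul_smul, inv_mul_cancel₀ ha'.ne', one_smul,
        Matrix.mul_nonsing_inv _ (isUnit_iff_ne_zero.2 hz0')]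
    have hz2 : sz (a⁻¹ • mt z - 1) ≤ ε := hz1.trans (hδc.trans hcε)
    have hz2' : sz ((a'⁻¹ • mt z')⁻¹ - 1) ≤ ε := by
      refine hz1'.trans ?_
      calc CB * δ ≤ M0 * c := mul_le_mul (le_max_right _ _) hδc hδ.le (by positivity)
        _ = ε := hε.symm
    set A : Mat m := (mt u)⁻¹ * (a⁻¹ • mt z) * (a'⁻¹ • mt z')⁻¹ with hA
    have hA0 : A.det ≠ 0 := by
      rw [hA, Matrix.det_mul, Matrix.det_mul]
      refine mul_ne_zero (mul_ne_zero (hdi _ hu0) ?_) (hdi _ ?_)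
      · rw [Matrix.det_smul]
        exact mul_ne_zero (by positivity) hz0
      · rw [Matrix.det_smul]
        exact mul_ne_zero (by positivity) hz0'
    have hA1 : ∀ u' : V m, u' ∈ Bn m r0 → sz (A * mt u' - 1) ≤ r' := by
      intro u' hu'
      obtain ⟨-, hu1', -⟩ := hU u' hu'
      have h1 : A * mt u' = ((mt u)⁻¹ * (a⁻¹ • mt z)) * ((a'⁻¹ • mt z')⁻¹ * mt u') := by
        rw [hA, mul_assoc]
      rw [h1]
      have h2 := sz_four hε0 hmε hu2 hz2 hz2' hu1'
      have h3 : 15 * ε = r' := by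
        rw [hcM]
        ring
      rwa [h3] at h2
    have hA2 : ∀ u' : V m, u' ∈ Bn m r0 → sz ((mt u)⁻¹ * mt u' - 1) ≤ r' := by
      intro u' hu'
      obtain ⟨-, hu1', -⟩ := hU u' hu'
      have h2 := sz_two hε0 hmε hu2 hu1'
      have h3 : 15 * ε = r' := by
        rw [hcM]
        ring
      linarith
    have heq : ∀ u' : V m, GG D F ((mt u)⁻¹ * mt z * ((mt z')⁻¹ * mt u')) =
        GG D F (A * mt u') := by
      intro u'
      have h1 : A * mt u' = (a⁻¹ * a') • ((mt u)⁻¹ * mt z * ((mt z')⁻¹ * mt u')) := by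
        rw [hA, hinv]
        simp only [Matrix.mul_smul, Matrix.smul_mul, smul_smul, mul_assoc]
        rw [mul_comm a' a⁻¹]
      rw [h1, GG_scal hm1 hS hF (by positivity)]
    simp only [heq]
    have hg1 : Measurable fun u' : V m => GG D F ((mt u)⁻¹ * mt u') :=
      hGm.comp (hac_meas_lm (mt u)⁻¹)
    have hg2 : Measurable fun u' : V m => GG D F (A * mt u') := hGm.comp (hac_meas_lm A)
    have hg3 : Measurable fun u' : V m => GG D F ((mt u)⁻¹ * mt u') + GG D F (A * mt u') :=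
      hg1.add hg2
    rw [lintegral_const_mul _ hg3, lintegral_add_left hg1, mul_assoc, two_mul]
    exact mul_le_mul' le_rfl (mul_le_mul' le_rfl (add_le_add
      (key _ (hdi _ hu0) hA2) (key _ hA0 hA1)))
  -- the integral over three variables
  have hmid : ∀ u : V m, u ∈ Bn m r0 → ∫⁻ u' in Bn m r0, ∫⁻ z in Shell m, ∫⁻ z' in Shell m,
      K z * K z' * (GG D F ((mt u)⁻¹ * mt u') +
        GG D F ((mt u)⁻¹ * mt z * ((mt z')⁻¹ * mt u'))) ∂(hm m) ∂(hm m) ≤
      ENNReal.ofReal t * (ENNReal.ofReal t * (2 * Me)) := by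
    intro u hu
    have hH : Measurable fun p : (V m × V m) × V m => K p.1.2 * K p.2 *
        (GG D F ((mt u)⁻¹ * mt p.1.1) +
          GG D F ((mt u)⁻¹ * mt p.1.2 * ((mt p.2)⁻¹ * mt p.1.1))) := by
      have hu' : Measurable fun p : (V m × V m) × V m => p.1.1 :=
        measurable_fst.comp measurable_fst
      have hz : Measurable fun p : (V m × V m) × V m => p.1.2 :=
        measurable_snd.comp measurable_fst
      have hz' : Measurable fun p : (V m × V m) × V m => p.2 := measurable_snd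
      have hcu : Measurable fun _ : (V m × V m) × V m =>
          ((fun i j => ((mt u)⁻¹) i j) : V m) := measurable_const
      have h1 := hGm.comp (mulm hcu hu')
      have h2 := hGm.comp (mulm (mulm hcu hz) (mulm (invm hz') hu'))
      exact ((hKm.comp hz).mul (hKm.comp hz')).mul (h1.add h2)
    rw [swap3 (H := fun u' z z' => K z * K z' * (GG D F ((mt u)⁻¹ * mt u') +
        GG D F ((mt u)⁻¹ * mt z * ((mt z')⁻¹ * mt u')))) hH]
    calc ∫⁻ z in Shell m, ∫⁻ z' in Shell m, (∫⁻ u' in Bn m r0, K z * K z' *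
          (GG D F ((mt u)⁻¹ * mt u') +
            GG D F ((mt u)⁻¹ * mt z * ((mt z')⁻¹ * mt u')))) ∂(hm m) ∂(hm m)
        ≤ ∫⁻ z in Shell m, ∫⁻ z' in Shell m, K z * (K z' * (2 * Me)) ∂(hm m) ∂(hm m) :=
          setLIntegral_mono' hSm fun z hz => setLIntegral_mono' hSm fun z' hz' =>
            hin u hu z hz z' hz'
      _ = ENNReal.ofReal t * (ENNReal.ofReal t * (2 * Me)) := by
          have h1 : ∀ z : V m, ∫⁻ z' in Shell m, K z * (K z' * (2 * Me)) ∂(hm m) =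
              K z * (ENNReal.ofReal t * (2 * Me)) := fun z => by
            rw [lintegral_const_mul _ (hKm.mul_const _), lintegral_mul_const _ hKm, hKt]
          simp only [h1]
          rw [lintegral_mul_const _ hKm, hKt]
  -- the end
  have hfin : ‖∫ u in Bn m r0, ∫ u' in Bn m r0, ip D (rt (mt u) F) (rt (mt u') F) *
      (starRingEnd ℂ) (ip D (Rr (bi m χ δ) 1 (rt (mt u) F)) (Rr (bi m χ δ) 1 (rt (mt u') F)))‖ₑ ≤
      ENNReal.ofReal t * (ENNReal.ofReal t * (2 * Me)) * volume (Bn m c) := by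
    refine (enorm_integral_le_lintegral_enorm _).trans ?_
    calc ∫⁻ u in Bn m r0, ‖∫ u' in Bn m r0, ip D (rt (mt u) F) (rt (mt u') F) *
          (starRingEnd ℂ) (ip D (Rr (bi m χ δ) 1 (rt (mt u) F))
            (Rr (bi m χ δ) 1 (rt (mt u') F)))‖ₑ
        ≤ ∫⁻ _ in Bn m r0, ENNReal.ofReal t * (ENNReal.ofReal t * (2 * Me)) := by
          refine setLIntegral_mono' (Bn_meas m r0) fun u hu => ?_
          refine (enorm_integral_le_lintegral_enorm _).trans ?_
          refine le_trans ?_ (hmid u hu)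
          refine setLIntegral_mono' (Bn_meas m r0) fun u' hu' => ?_
          exact ip_conv hIPT hRRT hm1 hS hF hk (hU u hu).1 (hU u' hu').1
      _ = ENNReal.ofReal t * (ENNReal.ofReal t * (2 * Me)) * volume (Bn m r0) :=
          setLIntegral_const _ _
      _ ≤ _ := mul_le_mul' le_rfl (measure_mono fun v hv => le_trans hv hr0c)
  have hH0 : 0 ≤ Hn r D F := by
    unfold Hn
    exact integral_nonneg fun v => by positivity
  have hconv : ENNReal.ofReal t * (ENNReal.ofReal t * (2 * Me)) * volume (Bn m c) =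
      ENNReal.ofReal (2 * C1 ^ m * C1 ^ m * W * t ^ 2 * Hn r D F) := by
    have h2 : (2 : ℝ≥0∞) = ENNReal.ofReal 2 := by norm_num
    have hCp : 0 ≤ C1 ^ m := by positivity
    rw [hMe, ← ENNReal.ofReal_toReal hWf, ← hW, h2, ← ENNReal.ofReal_mul hCp,
      ← ENNReal.ofReal_mul hCp, ← ENNReal.ofReal_mul (by norm_num), ← ENNReal.ofReal_mul ht0,
      ← ENNReal.ofReal_mul ht0, ← ENNReal.ofReal_mul (by positivity)]
    congr 1
    ring
  rw [hconv, ← ofReal_norm, ENNReal.ofReal_le_ofReal_iff (by positivity)] at hfin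
  refine hfin.trans ?_
  have h3 : 0 ≤ t ^ 2 * Hn r D F := by positivity
  nlinarith

end Pool.Agent.H85.GHK
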